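import Pool.Agent.LeoC.CountStmts

/-!
Squad leoc, module MAP: the coordinates of the vectors for an integral form.
-/

set_option autoImplicit false

open NumberField NumberField.InfinitePlace NumberField.mixedEmbedding IsDedekindDomain Module
  MeasureTheory
open Pool.Agent.LeoK Pool.Agent.LeoG

open scoped Classical

namespace Pool.Agent.LeoC.H56

/-! ### invariance of the volume -/

instance haarCC : (volume : Measure (ℂ × ℂ)).IsAddHaarMeasure :=
  Measure.prod.instIsAddHaarMeasure volume volume

instance haarMS (k : Type) [Field k] [NumberField k] :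
    (volume : Measure (MS k)).IsAddHaarMeasure :=
  Measure.prod.instIsAddHaarMeasure volume volume

instance haarMS2 (k : Type) [Field k] [NumberField k] :
    (volume : Measure (MS k × MS k)).IsAddHaarMeasure :=
  Measure.prod.instIsAddHaarMeasure volume volume

instance haarPC (k : Type) [Field k] [NumberField k] :
    (volume : Measure ({w : InfinitePlace k // IsComplex w} → ℂ × ℂ)).IsAddHaarMeasure :=
  Measure.pi.isAddHaarMeasure (fun _ => (volume : Measure (ℂ × ℂ)))

instance haarWS (k : Type) [Field k] [NumberField k] :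
    (volume : Measure (WS k)).IsAddHaarMeasure :=
  Measure.prod.instIsAddHaarMeasure volume volume

/-! ### one real place -/

/-- `(x, y) ↦ x z₁ + y z₂` as a real linear map of `ℝ × ℝ` to itself -/
noncomputable def mR (z₁ z₂ : ℂ) : (ℝ × ℝ) →ₗ[ℝ] (ℝ × ℝ) where
  toFun p := (p.1 * z₁.re + p.2 * z₂.re, p.1 * z₁.im + p.2 * z₂.im)
  map_add' p q := by
    ext <;> simp <;> ring
  map_smul' t p := by
    ext <;> simp <;> ring

theorem det_mR (z₁ z₂ : ℂ) : LinearMap.det (mR z₁ z₂) = (starRingEnd ℂ z₁ * z₂).im := by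
  rw [← LinearMap.det_toMatrix (Basis.finTwoProd ℝ), Matrix.det_fin_two]
  simp [LinearMap.toMatrix_apply, mR]
  ring

theorem exists_ER (z₁ z₂ : ℂ) (h : |(starRingEnd ℂ z₁ * z₂).im| = 1 / 2) :
    ∃ L : (ℝ × ℝ) ≃L[ℝ] ℂ, (∀ p, L p = (p.1 : ℂ) * z₁ + (p.2 : ℂ) * z₂) ∧
      ∀ S : Set (ℝ × ℝ), volume (L '' S) = ENNReal.ofReal (1 / 2) * volume S := by
  have hdet : LinearMap.det (mR z₁ z₂) ≠ 0 := by
    rw [det_mR]
    intro h0
    rw [h0, abs_zero] at h
    norm_num at h
  let M : (ℝ × ℝ) ≃L[ℝ] (ℝ × ℝ) := ((mR z₁ z₂).equivOfDetNeZero hdet).toContinuousLinearEquiv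
  have hM : ∀ p, M p = mR z₁ z₂ p := fun p => rfl
  refine ⟨M.trans Complex.equivRealProdCLM.symm, ?_, ?_⟩
  · intro p
    rw [ContinuousLinearEquiv.trans_apply, hM]
    apply (Complex.equivRealProdCLM).injective
    rw [ContinuousLinearEquiv.apply_symm_apply]
    have : ∀ z : ℂ, Complex.equivRealProdCLM z = (z.re, z.im) := fun z => rfl
    rw [this]
    ext
    · simp [mR]
    · simp [mR]
  · intro S
    have h1 : (⇑(M.trans Complex.equivRealProdCLM.symm)) '' S =
        Complex.measurableEquivRealProd ⁻¹' (mR z₁ z₂ '' S) := by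
      ext w
      simp only [Set.mem_image, Set.mem_preimage]
      constructor
      · rintro ⟨p, hp, rfl⟩
        exact ⟨p, hp, rfl⟩
      · rintro ⟨p, hp, hpw⟩
        refine ⟨p, hp, ?_⟩
        rw [ContinuousLinearEquiv.trans_apply, hM, hpw]
        rfl
    rw [h1, Complex.volume_preserving_equiv_real_prod.measure_preimage_equiv,
      Measure.addHaar_image_linearMap, det_mR, h]

/-! ### one complex place -/

/-- `(x, y) ↦ (a x + b y, c x + d y)` -/
noncomputable def mC (a b c d : ℂ) : (ℂ × ℂ) →ₗ[ℂ] (ℂ × ℂ) where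
  toFun p := (a * p.1 + b * p.2, c * p.1 + d * p.2)
  map_add' p q := by
    ext <;> simp <;> ring
  map_smul' t p := by
    ext <;> simp <;> ring

theorem det_mC (a b c d : ℂ) : LinearMap.det (mC a b c d) = a * d - b * c := by
  rw [← LinearMap.det_toMatrix (Basis.finTwoProd ℂ), Matrix.det_fin_two]
  simp [LinearMap.toMatrix_apply, mC]

theorem exists_EC (a b c d : ℂ) (h : ‖a * d - b * c‖ = 1 / 2) :
    ∃ L : (ℂ × ℂ) ≃L[ℝ] (ℂ × ℂ), (∀ p, L p = (a * p.1 + b * p.2, c * p.1 + d * p.2)) ∧
      ∀ S : Set (ℂ × ℂ), volume (L '' S) = ENNReal.ofReal (1 / 4) * volume S := by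
  have hd : LinearMap.det ((mC a b c d).restrictScalars ℝ) = 1 / 4 := by
    rw [LinearMap.det_restrictScalars, Algebra.norm_complex_apply, det_mC,
      Complex.normSq_eq_norm_sq, h]
    norm_num
  have hdet : LinearMap.det ((mC a b c d).restrictScalars ℝ) ≠ 0 := by
    rw [hd]
    norm_num
  refine ⟨(((mC a b c d).restrictScalars ℝ).equivOfDetNeZero hdet).toContinuousLinearEquiv,
    fun p => rfl, fun S => ?_⟩
  change volume (((mC a b c d).restrictScalars ℝ) '' S) = _
  rw [Measure.addHaar_image_linearMap, hd, abs_of_pos (by norm_num)]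

/-! ### the whole map -/

variable {k : Type} [Field k]

/-- the map assembled from its components -/
noncomputable def LL [NumberField k] (ER : {w : InfinitePlace k // IsReal w} → (ℝ × ℝ) ≃L[ℝ] ℂ)
    (EC : {w : InfinitePlace k // IsComplex w} → (ℂ × ℂ) ≃L[ℝ] (ℂ × ℂ)) :
    (MS k × MS k) ≃L[ℝ] WS k where
  toFun p := (fun v => ER v (p.1.1 v, p.2.1 v), fun v => EC v (p.1.2 v, p.2.2 v))
  invFun w := ((fun v => ((ER v).symm (w.1 v)).1, fun v => ((EC v).symm (w.2 v)).1),
    (fun v => ((ER v).symm (w.1 v)).2, fun v => ((EC v).symm (w.2 v)).2))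
  left_inv p := by
    refine Prod.ext (Prod.ext ?_ ?_) (Prod.ext ?_ ?_) <;> funext v <;> simp
  right_inv w := by
    refine Prod.ext ?_ ?_ <;> funext v <;> simp
  map_add' p q := by
    refine Prod.ext ?_ ?_
    · funext v
      exact map_add (ER v) (p.1.1 v, p.2.1 v) (q.1.1 v, q.2.1 v)
    · funext v
      exact map_add (EC v) (p.1.2 v, p.2.2 v) (q.1.2 v, q.2.2 v)
  map_smul' t p := by
    refine Prod.ext ?_ ?_
    · funext v
      exact map_smul (ER v) t (p.1.1 v, p.2.1 v)
    · funext v
      exact map_smul (EC v) t (p.1.2 v, p.2.2 v)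
  continuous_toFun := by
    refine Continuous.prodMk ?_ ?_
    · refine continuous_pi fun v => ?_
      exact (ER v).continuous.comp (Continuous.prodMk
        ((continuous_apply v).comp (continuous_fst.comp continuous_fst))
        ((continuous_apply v).comp (continuous_fst.comp continuous_snd)))
    · refine continuous_pi fun v => ?_
      exact (EC v).continuous.comp (Continuous.prodMk
        ((continuous_apply v).comp (continuous_snd.comp continuous_fst))
        ((continuous_apply v).comp (continuous_snd.comp continuous_snd)))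
  continuous_invFun := by
    refine Continuous.prodMk (Continuous.prodMk ?_ ?_) (Continuous.prodMk ?_ ?_)
    · refine continuous_pi fun v => ?_
      exact continuous_fst.comp ((ER v).symm.continuous.comp
        ((continuous_apply v).comp continuous_fst))
    · refine continuous_pi fun v => ?_
      exact continuous_fst.comp ((EC v).symm.continuous.comp
        ((continuous_apply v).comp continuous_snd))
    · refine continuous_pi fun v => ?_
      exact continuous_snd.comp ((ER v).symm.continuous.comp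
        ((continuous_apply v).comp continuous_fst))
    · refine continuous_pi fun v => ?_
      exact continuous_snd.comp ((EC v).symm.continuous.comp
        ((continuous_apply v).comp continuous_snd))

theorem LL_vol [NumberField k] (ER : {w : InfinitePlace k // IsReal w} → (ℝ × ℝ) ≃L[ℝ] ℂ)
    (EC : {w : InfinitePlace k // IsComplex w} → (ℂ × ℂ) ≃L[ℝ] (ℂ × ℂ))
    (hR : ∀ v S, volume (ER v '' S) = ENNReal.ofReal (1 / 2) * volume S)
    (hC : ∀ v S, volume (EC v '' S) = ENNReal.ofReal (1 / 4) * volume S)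
    (S : Set (MS k × MS k)) :
    volume (LL ER EC '' S) = ENNReal.ofReal ((1 / 2) ^ finrank ℚ k) * volume S := by
  set L := LL ER EC with hL
  have hcard : nrRealPlaces k + 2 * nrComplexPlaces k = finrank ℚ k :=
    card_add_two_mul_card_eq_rank k
  -- the image measure is a multiple of the volume
  let μ : Measure (MS k × MS k) := Measure.map L.symm volume
  have hμi : ∀ T : Set (MS k × MS k), μ T = volume (L '' T) := by
    intro T
    have h1 := L.symm.toHomeomorph.toMeasurableEquiv.map_apply (μ := (volume : Measure (WS k))) T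
    have h2 : (L.symm.toHomeomorph.toMeasurableEquiv : WS k → MS k × MS k) ⁻¹' T = L '' T :=
      (L.image_eq_preimage_symm T).symm
    rw [h2] at h1
    exact h1
  have : μ.IsAddHaarMeasure := L.symm.isAddHaarMeasure_map volume
  have hμ : μ = Measure.addHaarScalarFactor μ volume • (volume : Measure (MS k × MS k)) :=
    Measure.isAddLeftInvariant_eq_smul μ volume
  -- a box
  let D : Set ℂ := Metric.closedBall 0 1
  have hD0 : volume D ≠ 0 := by
    have := Metric.measure_closedBall_pos (volume : Measure ℂ) 0 one_pos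
    exact this.ne'
  have hDt : volume D ≠ ⊤ := (isCompact_closedBall (0 : ℂ) 1).measure_lt_top.ne
  let I : Set ℝ := Set.Icc 0 1
  let A : Set (MS k) := (Set.univ.pi fun _ => I) ×ˢ (Set.univ.pi fun _ => D)
  let S0 : Set (MS k × MS k) := A ×ˢ A
  have hI : volume I = 1 := by simp [I]
  have hA : volume A = ∏ _v : {w : InfinitePlace k // IsComplex w}, volume D := by
    have : volume A = (volume (Set.univ.pi fun _ : {w : InfinitePlace k // IsReal w} => I)) *
        volume (Set.univ.pi fun _ : {w : InfinitePlace k // IsComplex w} => D) :=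
      Measure.prod_prod _ _
    rw [this, volume_pi_pi, volume_pi_pi, hI]
    simp
  have hS0 : volume S0 = (∏ _v : {w : InfinitePlace k // IsComplex w}, volume D) *
      ∏ _v : {w : InfinitePlace k // IsComplex w}, volume D := by
    have : volume S0 = volume A * volume A := Measure.prod_prod _ _
    rw [this, hA]
  have hS00 : volume S0 ≠ 0 := by
    rw [hS0]
    exact mul_ne_zero (Finset.prod_ne_zero_iff.mpr fun _ _ => hD0)
      (Finset.prod_ne_zero_iff.mpr fun _ _ => hD0)
  have hS0t : volume S0 ≠ ⊤ := by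
    rw [hS0]
    exact ENNReal.mul_ne_top (ENNReal.prod_ne_top fun _ _ => hDt)
      (ENNReal.prod_ne_top fun _ _ => hDt)
  have hLS0 : L '' S0 = (Set.univ.pi fun v => ER v '' (I ×ˢ I)) ×ˢ
      (Set.univ.pi fun v => EC v '' (D ×ˢ D)) := by
    ext w
    constructor
    · rintro ⟨p, hp, rfl⟩
      obtain ⟨⟨h1, h2⟩, h3, h4⟩ := hp
      refine ⟨fun v _ => ⟨(p.1.1 v, p.2.1 v), ⟨h1 v trivial, h3 v trivial⟩, rfl⟩,
        fun v _ => ⟨(p.1.2 v, p.2.2 v), ⟨h2 v trivial, h4 v trivial⟩, rfl⟩⟩
    · rintro ⟨h1, h2⟩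
      refine ⟨L.symm w, ?_, L.apply_symm_apply w⟩
      have h1' : ∀ v, (ER v).symm (w.1 v) ∈ I ×ˢ I := by
        intro v
        obtain ⟨q, hq, hqw⟩ := h1 v trivial
        rw [← hqw, ContinuousLinearEquiv.symm_apply_apply]
        exact hq
      have h2' : ∀ v, (EC v).symm (w.2 v) ∈ D ×ˢ D := by
        intro v
        obtain ⟨q, hq, hqw⟩ := h2 v trivial
        rw [← hqw, ContinuousLinearEquiv.symm_apply_apply]
        exact hq
      exact ⟨⟨fun v _ => (h1' v).1, fun v _ => (h2' v).1⟩,
        fun v _ => (h1' v).2, fun v _ => (h2' v).2⟩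
  have hv : volume (L '' S0) = ENNReal.ofReal ((1 / 2) ^ finrank ℚ k) * volume S0 := by
    have e1 : volume (L '' S0) = volume (Set.univ.pi fun v => ER v '' (I ×ˢ I)) *
        volume (Set.univ.pi fun v => EC v '' (D ×ˢ D)) := by
      rw [hLS0]
      exact Measure.prod_prod _ _
    have e2 : ∀ v, volume (ER v '' (I ×ˢ I)) = ENNReal.ofReal (1 / 2) := by
      intro v
      rw [hR]
      have : volume (I ×ˢ I) = volume I * volume I := Measure.prod_prod _ _
      rw [this, hI, one_mul, mul_one]
    have e3 : ∀ v, volume (EC v '' (D ×ˢ D)) = ENNReal.ofReal (1 / 4) * (volume D * volume D) := by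
      intro v
      rw [hC]
      congr 1
      exact Measure.prod_prod _ _
    rw [e1, volume_pi_pi, volume_pi_pi, hS0]
    simp only [e2, e3]
    rw [Finset.prod_mul_distrib, Finset.prod_mul_distrib, Finset.prod_const, Finset.prod_const,
      Finset.card_univ, Finset.card_univ, ← hcard]
    have e4 : ENNReal.ofReal ((1 / 2) ^ (nrRealPlaces k + 2 * nrComplexPlaces k)) =
        ENNReal.ofReal (1 / 2) ^ nrRealPlaces k * ENNReal.ofReal (1 / 4) ^ nrComplexPlaces k := by
      rw [← ENNReal.ofReal_pow (by norm_num), ← ENNReal.ofReal_pow (by norm_num),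
        ← ENNReal.ofReal_mul (by positivity), pow_add, pow_mul]
      norm_num
    rw [e4]
    simp only [nrRealPlaces, nrComplexPlaces]
    ring
  have hfac : ((Measure.addHaarScalarFactor μ volume : NNReal) : ENNReal) =
      ENNReal.ofReal ((1 / 2) ^ finrank ℚ k) := by
    have h1 : μ S0 = ((Measure.addHaarScalarFactor μ volume : NNReal) : ENNReal) *
        volume S0 := by
      conv_lhs => rw [hμ]
      rfl
    rw [hμi, hv] at h1
    exact ((ENNReal.mul_left_inj hS00 hS0t).mp h1).symm
  rw [← hμi, ← hfac]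
  conv_lhs => rw [hμ]
  rfl

/-! ### polynomial maps -/

theorem mm_hom {A B : Type} [CommRing A] [CommRing B] (f : A →+* B) (v : Q4 A) :
    f (mm v) = mm fun i => f (v i) := by
  simp only [mm, dsc, map_neg, map_add, map_sub, map_mul, map_pow, map_ofNat]

theorem gval_hom {A B : Type} [CommRing A] [CommRing B] (f : A →+* B) (v : Q4 A) (X Y : A) :
    f (gval v X Y) = gval (fun i => f (v i)) (f X) (f Y) := by
  simp only [gval, map_add, map_mul, map_pow]

/-- the real embedding as a homomorphism on integers -/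
noncomputable def hR [NumberField k] (v : {w : InfinitePlace k // IsReal w}) : 𝓞 k →+* ℝ :=
  (embedding_of_isReal v.2).comp (algebraMap (𝓞 k) k)

/-- the complex embedding as a homomorphism on integers -/
noncomputable def hC [NumberField k] (v : InfinitePlace k) : 𝓞 k →+* ℂ :=
  v.embedding.comp (algebraMap (𝓞 k) k)

theorem hR_apply [NumberField k] (v : {w : InfinitePlace k // IsReal w}) (x : 𝓞 k) :
    hR v x = (mixedEmbedding k (x : k)).1 v := rfl

theorem hC_apply [NumberField k] (v : InfinitePlace k) (x : 𝓞 k) :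
    hC v x = v.embedding (x : k) := rfl

theorem hR_coe [NumberField k] (v : {w : InfinitePlace k // IsReal w}) (x : 𝓞 k) :
    ((hR v x : ℝ) : ℂ) = v.1.embedding (x : k) := embedding_of_isReal_apply v.2 _

theorem abs_hR [NumberField k] (v : {w : InfinitePlace k // IsReal w}) (x : 𝓞 k) :
    |hR v x| = v.1 (x : k) := by
  rw [← InfinitePlace.norm_embedding_eq, ← hR_coe, Complex.norm_real, Real.norm_eq_abs]

theorem norm_hC [NumberField k] (v : InfinitePlace k) (x : 𝓞 k) :
    ‖hC v x‖ = v (x : k) := by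
  rw [← InfinitePlace.norm_embedding_eq, hC_apply]

theorem fv_em [NumberField k] (hevs : EvsStmt) (v : InfinitePlace k) (g : Q4 (𝓞 k)) :
    fv v (em g) = fun i => hC v (g i) := by
  funext i
  exact (hevs k).1 v (g i : k)

theorem map_stmt (hevs : EvsStmt) (hror : RorStmt) (hroc : RocStmt) : MapStmt := by
  intro k _ _ N g hS
  have hmR : ∀ v : {w : InfinitePlace k // IsReal w},
      (v ∈ N → mm (fun i => hR v (g i)) < 0) ∧ (v ∉ N → 0 < mm (fun i => hR v (g i))) := by
    intro v
    rw [← mm_hom, hR_apply]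
    exact hS.1 v
  have hmR0 : ∀ v : {w : InfinitePlace k // IsReal w}, mm (fun i => hR v (g i)) ≠ 0 := by
    intro v
    by_cases hv : v ∈ N
    · exact ((hmR v).1 hv).ne
    · exact ((hmR v).2 hv).ne'
  have hmC0 : ∀ v : {w : InfinitePlace k // IsComplex w}, mm (fun i => hC v.1 (g i)) ≠ 0 := by
    intro v
    rw [← mm_hom]
    exact hS.2 v
  choose z₁ z₂ hz hzz using fun v : {w : InfinitePlace k // IsReal w} =>
    hror (fun i => hR v (g i)) (hmR0 v)
  choose a b c d hab hcc using fun v : {w : InfinitePlace k // IsComplex w} =>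
    hroc (fun i => hC v.1 (g i)) (hmC0 v)
  choose ER hER hERv using fun v => exists_ER (z₁ v) (z₂ v) (hz v)
  choose EC hEC hECv using fun v => exists_EC (a v) (b v) (c v) (d v) (hab v)
  refine ⟨LL ER EC, LL_vol ER EC hERv hECv, ?_⟩
  intro X Y
  have h1 : ∀ v, (LL ER EC (mixedEmbedding k (X : k), mixedEmbedding k (Y : k))).1 v =
      ((hR v X : ℝ) : ℂ) * z₁ v + ((hR v Y : ℝ) : ℂ) * z₂ v := fun v => hER v _
  have h2 : ∀ v, (LL ER EC (mixedEmbedding k (X : k), mixedEmbedding k (Y : k))).2 v =
      (a v * hC v.1 X + b v * hC v.1 Y, c v * hC v.1 X + d v * hC v.1 Y) := fun v => hEC v _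
  refine ⟨?_, ?_, ?_⟩
  · funext v
    unfold wz hk
    rw [fv_em hevs]
    by_cases hv : IsReal v
    · rw [dif_pos hv, h1, ((hzz ⟨v, hv⟩) _ _).1]
      have e : ∀ x : 𝓞 k, ((hR ⟨v, hv⟩ x : ℝ) : ℂ) = v.embedding (x : k) :=
        fun x => hR_coe ⟨v, hv⟩ x
      simp only [e]
      rfl
    · rw [dif_neg hv, h2]
      exact ((hcc ⟨v, not_isReal_iff_isComplex.mp hv⟩) _ _).1
  · intro v
    have e1 : v.1 ((mm g : 𝓞 k) : k) = |mm (fun i => hR v (g i))| := by
      rw [← mm_hom, abs_hR]
    have e2 : v.1 ((gval g X Y : 𝓞 k) : k) = |gval (fun i => hR v (g i)) (hR v X) (hR v Y)| := by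
      rw [← gval_hom, abs_hR]
    rw [e1, e2]
    unfold c3
    rw [h1]
    by_cases hv : v ∈ N
    · rw [if_pos hv]
      exact ((hzz v) _ _).2.2 ((hmR v).1 hv)
    · rw [if_neg hv]
      exact ((hzz v) _ _).2.1 ((hmR v).2 hv)
  · intro v
    have e1 : v.1 ((mm g : 𝓞 k) : k) = ‖mm (fun i => hC v.1 (g i))‖ := by
      rw [← mm_hom, norm_hC]
    have e2 : v.1 ((gval g X Y : 𝓞 k) : k) =
        ‖gval (fun i => hC v.1 (g i)) (hC v.1 X) (hC v.1 Y)‖ := by
      rw [← gval_hom, norm_hC]
    rw [e1, e2, h2]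
    exact ((hcc v) _ _).2

end Pool.Agent.LeoC.H56
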