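import Pool.Agent.LeoC.CountStmts
import Pool.Agent.Helper25_LeoC.Avv

/-!
Squad leoc, module VOD: volume of the region of the marks.
-/

set_option autoImplicit false

open NumberField NumberField.InfinitePlace NumberField.mixedEmbedding IsDedekindDomain Module
  MeasureTheory
open Pool.Agent.LeoK Pool.Agent.LeoG

open scoped Classical Topology

namespace Pool.Agent.LeoC.H56.VOD

/-- measures on the line with the same finite distribution function -/
theorem ext_Iic (μ ν : Measure ℝ) (h : ∀ b, μ (Set.Iic b) = ν (Set.Iic b))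
    (hf : ∀ b, μ (Set.Iic b) ≠ ⊤) : μ = ν := by
  have : IsLocallyFiniteMeasure μ :=
    ⟨fun x => ⟨Set.Iic (x + 1), Iic_mem_nhds (by linarith), (hf _).lt_top⟩⟩
  refine Measure.ext_of_Ioc μ ν fun a b _ => ?_
  have e : Set.Ioc a b = Set.Iic b \ Set.Iic a := by
    ext x
    simp only [Set.mem_Ioc, Set.mem_sdiff, Set.mem_Iic, not_le]
    tauto
  have hsub : Set.Iic a ⊆ Set.Iic b ∨ Set.Iic b ⊆ Set.Iic a := by
    rcases le_total a b with h | h
    · exact Or.inl (Set.Iic_subset_Iic.mpr h)
    · exact Or.inr (Set.Iic_subset_Iic.mpr h)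
  rcases hsub with hs | hs
  · rw [e, measure_sdiff hs measurableSet_Iic.nullMeasurableSet (hf a),
      measure_sdiff hs measurableSet_Iic.nullMeasurableSet (by rw [← h]; exact hf a), h, h]
  · rw [e, Set.sdiff_eq_empty.mpr hs, measure_empty, measure_empty]

theorem map_R : Measure.map (fun z : ℂ => ‖z‖ ^ 2) volume =
    ENNReal.ofReal Real.pi • (volume : Measure ℝ).restrict (Set.Ioi 0) := by
  have hm : Measurable fun z : ℂ => ‖z‖ ^ 2 := by fun_prop
  have h1 : ∀ b, Measure.map (fun z : ℂ => ‖z‖ ^ 2) volume (Set.Iic b) =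
      ENNReal.ofReal Real.pi * ENNReal.ofReal b := by
    intro b
    rw [Measure.map_apply hm measurableSet_Iic]
    rcases lt_or_ge b 0 with hb | hb
    · have e : (fun z : ℂ => ‖z‖ ^ 2) ⁻¹' Set.Iic b = ∅ := by
        ext z
        simp only [Set.mem_preimage, Set.mem_Iic, Set.mem_empty_iff_false, iff_false, not_le]
        exact hb.trans_le (sq_nonneg _)
      rw [e, measure_empty, ENNReal.ofReal_of_nonpos hb.le, mul_zero]
    · have e : (fun z : ℂ => ‖z‖ ^ 2) ⁻¹' Set.Iic b = Metric.closedBall 0 (Real.sqrt b) := by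
        ext z
        simp only [Set.mem_preimage, Set.mem_Iic, Metric.mem_closedBall, dist_zero_right]
        exact (Real.le_sqrt (norm_nonneg _) hb).symm
      rw [e, Complex.volume_closedBall, ← ENNReal.ofReal_pow (Real.sqrt_nonneg _),
        Real.sq_sqrt hb, mul_comm]
      congr 1
      rw [← NNReal.coe_real_pi, ENNReal.ofReal_coe_nnreal]
  refine ext_Iic _ _ ?_ ?_
  · intro b
    rw [h1, Measure.smul_apply, smul_eq_mul, Measure.restrict_apply measurableSet_Iic]
    congr 1
    have e : Set.Iic b ∩ Set.Ioi 0 = Set.Ioc 0 b := by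
      ext x
      simp only [Set.mem_inter_iff, Set.mem_Iic, Set.mem_Ioi, Set.mem_Ioc]
      tauto
    rw [e, Real.volume_Ioc, sub_zero]
  · intro b
    rw [h1]
    exact ENNReal.mul_ne_top ENNReal.ofReal_ne_top ENNReal.ofReal_ne_top

theorem map_C : Measure.map (fun p : ℂ × ℂ => ‖p.1‖ ^ 2 + ‖p.2‖ ^ 2) volume =
    ENNReal.ofReal (Real.pi / 2) • Measure.map (fun z : ℂ => ‖z‖) volume := by
  have hm : Measurable fun p : ℂ × ℂ => ‖p.1‖ ^ 2 + ‖p.2‖ ^ 2 := by fun_prop
  have h1 : ∀ b, Measure.map (fun p : ℂ × ℂ => ‖p.1‖ ^ 2 + ‖p.2‖ ^ 2) volume (Set.Iic b) =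
      ENNReal.ofReal (Real.pi ^ 2 / 2) * ENNReal.ofReal b ^ 2 := by
    intro b
    rw [Measure.map_apply hm measurableSet_Iic]
    rcases lt_or_ge b 0 with hb | hb
    · have e : (fun p : ℂ × ℂ => ‖p.1‖ ^ 2 + ‖p.2‖ ^ 2) ⁻¹' Set.Iic b = ∅ := by
        ext z
        simp only [Set.mem_preimage, Set.mem_Iic, Set.mem_empty_iff_false, iff_false, not_le]
        exact hb.trans_le (by positivity)
      rw [e, measure_empty, ENNReal.ofReal_of_nonpos hb.le]
      simp
    · have h2 := Complex.volume_sum_rpow_le (Fin 2) (p := 2) (by norm_num) (Real.sqrt b)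
      have e : {x : Fin 2 → ℂ | (∑ i, ‖x i‖ ^ (2 : ℝ)) ^ (1 / 2 : ℝ) ≤ Real.sqrt b} =
          (MeasurableEquiv.finTwoArrow (α := ℂ)) ⁻¹'
            ((fun p : ℂ × ℂ => ‖p.1‖ ^ 2 + ‖p.2‖ ^ 2) ⁻¹' Set.Iic b) := by
        ext x
        simp only [Set.mem_ofPred_eq, Set.mem_preimage, Set.mem_Iic, Fin.sum_univ_two,
          Real.rpow_two]
        rw [← Real.sqrt_eq_rpow]
        exact Real.sqrt_le_sqrt_iff hb
      rw [e, (volume_preserving_finTwoArrow ℂ).measure_preimage_equiv] at h2
      rw [h2, ← ENNReal.ofReal_pow (Real.sqrt_nonneg _), ← ENNReal.ofReal_pow hb,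
        ← ENNReal.ofReal_mul (by positivity), ← ENNReal.ofReal_mul (by positivity)]
      congr 1
      have e1 : Real.sqrt b ^ (2 * Fintype.card (Fin 2)) = b ^ 2 := by
        rw [Fintype.card_fin, pow_mul, Real.sq_sqrt hb]
      have e2 : Real.Gamma (2 / 2 + 1) = 1 := by
        rw [div_self two_ne_zero]
        have := Real.Gamma_nat_eq_factorial 1
        norm_num at this ⊢
      have e3 : Real.Gamma (2 * (Fintype.card (Fin 2) : ℝ) / 2 + 1) = 2 := by
        rw [Fintype.card_fin]
        have := Real.Gamma_nat_eq_factorial 2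
        norm_num at this ⊢
      rw [e1, e2, e3, Fintype.card_fin]
      ring
  refine ext_Iic _ _ ?_ ?_
  · intro b
    rw [h1, Measure.smul_apply, smul_eq_mul, Measure.map_apply measurable_norm measurableSet_Iic]
    rcases lt_or_ge b 0 with hb | hb
    · have e : (fun z : ℂ => ‖z‖) ⁻¹' Set.Iic b = ∅ := by
        ext z
        simp only [Set.mem_preimage, Set.mem_Iic, Set.mem_empty_iff_false, iff_false, not_le]
        exact hb.trans_le (norm_nonneg _)
      rw [e, measure_empty, ENNReal.ofReal_of_nonpos hb.le]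
      simp
    · have e : (fun z : ℂ => ‖z‖) ⁻¹' Set.Iic b = Metric.closedBall 0 b := by
        ext z
        simp only [Set.mem_preimage, Set.mem_Iic, Metric.mem_closedBall, dist_zero_right]
      rw [e, Complex.volume_closedBall, ← NNReal.coe_real_pi, ← ENNReal.ofReal_coe_nnreal]
      rw [← ENNReal.ofReal_pow hb, ← ENNReal.ofReal_mul (by positivity),
        ← ENNReal.ofReal_mul (by positivity), ← ENNReal.ofReal_mul (by positivity)]
      congr 1
      ring
  · intro b
    rw [h1]
    exact ENNReal.mul_ne_top ENNReal.ofReal_ne_top (ENNReal.pow_ne_top ENNReal.ofReal_ne_top)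

variable {k : Type} [Field k]

theorem sf_of_Iic (μ : Measure ℝ) (h : ∀ b, μ (Set.Iic b) ≠ ⊤) : SigmaFinite μ := by
  have : IsLocallyFiniteMeasure μ :=
    ⟨fun x => ⟨Set.Iic (x + 1), Iic_mem_nhds (by linarith), (h _).lt_top⟩⟩
  infer_instance

theorem map_norm_Iic (b : ℝ) : Measure.map (fun z : ℂ => ‖z‖) volume (Set.Iic b) ≠ ⊤ := by
  rw [Measure.map_apply measurable_norm measurableSet_Iic]
  have e : (fun z : ℂ => ‖z‖) ⁻¹' Set.Iic b = Metric.closedBall 0 b := by
    ext z
    simp only [Set.mem_preimage, Set.mem_Iic, Metric.mem_closedBall, dist_zero_right]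
  rw [e]
  exact (isCompact_closedBall (0 : ℂ) b).measure_lt_top.ne

/-- the law of the size at a place -/
noncomputable def nuv (v : InfinitePlace k) : Measure ℝ :=
  if IsReal v then Measure.map (fun z : ℂ => ‖z‖ ^ 2) volume
  else Measure.map (fun p : ℂ × ℂ => ‖p.1‖ ^ 2 + ‖p.2‖ ^ 2) volume

theorem sf_nuv (v : InfinitePlace k) : SigmaFinite (nuv v) := by
  refine sf_of_Iic _ fun b => ?_
  unfold nuv
  split_ifs
  · rw [map_R, Measure.smul_apply, smul_eq_mul, Measure.restrict_apply measurableSet_Iic]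
    refine ENNReal.mul_ne_top ENNReal.ofReal_ne_top ?_
    have e : Set.Iic b ∩ Set.Ioi 0 = Set.Ioc 0 b := by
      ext x
      simp only [Set.mem_inter_iff, Set.mem_Iic, Set.mem_Ioi, Set.mem_Ioc]
      tauto
    rw [e, Real.volume_Ioc]
    exact ENNReal.ofReal_ne_top
  · rw [map_C, Measure.smul_apply, smul_eq_mul]
    exact ENNReal.mul_ne_top ENNReal.ofReal_ne_top (map_norm_Iic b)

theorem measurable_wz : Measurable (wz : WS k → PS k) := by
  refine measurable_pi_iff.mpr fun v => ?_
  unfold wz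
  by_cases h : IsReal v
  · simp only [dif_pos h]
    fun_prop
  · simp only [dif_neg h]
    fun_prop

theorem continuous_wz : Continuous (wz : WS k → PS k) := by
  refine continuous_pi fun v => ?_
  unfold wz
  by_cases h : IsReal v
  · simp only [dif_pos h]
    fun_prop
  · simp only [dif_neg h]
    fun_prop

theorem wz_real (w : WS k) (v : {w : InfinitePlace k // IsReal w}) :
    wz w v.1 = ‖w.1 v‖ ^ 2 := by
  unfold wz
  rw [dif_pos v.2]

theorem wz_complex (w : WS k) (v : {w : InfinitePlace k // IsComplex w}) :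
    wz w v.1 = ‖(w.2 v).1‖ ^ 2 + ‖(w.2 v).2‖ ^ 2 := by
  unfold wz
  rw [dif_neg (not_isReal_iff_isComplex.mpr v.2)]

theorem forall_places {P : InfinitePlace k → Prop} :
    (∀ v, P v) ↔ (∀ v : {w : InfinitePlace k // IsReal w}, P v.1) ∧
      ∀ v : {w : InfinitePlace k // IsComplex w}, P v.1 := by
  constructor
  · intro h
    exact ⟨fun v => h v.1, fun v => h v.1⟩
  · rintro ⟨h1, h2⟩ v
    rcases isReal_or_isComplex v with h | h
    · exact h1 ⟨v, h⟩
    · exact h2 ⟨v, h⟩

theorem map_wz [NumberField k] : Measure.map (wz : WS k → PS k) volume = Measure.pi nuv := by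
  have := fun v : InfinitePlace k => sf_nuv v
  symm
  refine Measure.pi_eq fun s hs => ?_
  rw [Measure.map_apply measurable_wz (MeasurableSet.univ_pi hs)]
  have e : (wz : WS k → PS k) ⁻¹' (Set.univ.pi s) =
      (Set.univ.pi fun v : {w : InfinitePlace k // IsReal w} =>
        (fun z : ℂ => ‖z‖ ^ 2) ⁻¹' (s v.1)) ×ˢ
      (Set.univ.pi fun v : {w : InfinitePlace k // IsComplex w} =>
        (fun p : ℂ × ℂ => ‖p.1‖ ^ 2 + ‖p.2‖ ^ 2) ⁻¹' (s v.1)) := by
    ext w
    simp only [Set.mem_preimage, Set.mem_univ_pi, Set.mem_prod]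
    rw [forall_places]
    simp only [wz_real, wz_complex]
  have e1 : volume ((wz : WS k → PS k) ⁻¹' (Set.univ.pi s)) =
      volume (Set.univ.pi fun v : {w : InfinitePlace k // IsReal w} =>
        (fun z : ℂ => ‖z‖ ^ 2) ⁻¹' (s v.1)) *
      volume (Set.univ.pi fun v : {w : InfinitePlace k // IsComplex w} =>
        (fun p : ℂ × ℂ => ‖p.1‖ ^ 2 + ‖p.2‖ ^ 2) ⁻¹' (s v.1)) := by
    rw [e]
    exact Measure.prod_prod _ _
  rw [e1, volume_pi_pi, volume_pi_pi, prod_eq_prod_mul_prod]
  congr 1
  · refine Finset.prod_congr rfl fun v _ => ?_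
    unfold nuv
    rw [if_pos v.2, Measure.map_apply (by fun_prop) (hs _)]
  · refine Finset.prod_congr rfl fun v _ => ?_
    unfold nuv
    rw [if_neg (not_isReal_iff_isComplex.mpr v.2), Measure.map_apply (by fun_prop) (hs _)]

theorem measurable_av : Measurable (av : MS k → PS k) := by
  refine measurable_pi_iff.mpr fun v => ?_
  rcases isReal_or_isComplex v with h | h
  · have e : (fun y : MS k => av y v) = fun y => ‖((y.1 ⟨v, h⟩ : ℝ) : ℂ)‖ := by
      funext y
      exact congrArg norm (H25.ev_real ⟨v, h⟩ y)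
    rw [e]
    fun_prop
  · have e : (fun y : MS k => av y v) = fun y => ‖y.2 ⟨v, h⟩‖ := by
      funext y
      exact congrArg norm (H25.ev_complex ⟨v, h⟩ y)
    rw [e]
    fun_prop

theorem measurable_sgn [NumberField k] : MeasurableSet {y : MS k | Sgn ∅ y} := by
  have e : {y : MS k | Sgn ∅ y} = (⋂ v : {w : InfinitePlace k // IsReal w}, {y | 0 < y.1 v}) ∩
      ⋂ v : {w : InfinitePlace k // IsComplex w}, {y | y.2 v ≠ 0} := by
    ext y
    simp only [Sgn, Set.mem_ofPred_eq, Set.mem_inter_iff, Set.mem_iInter, Set.mem_empty_iff_false,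
      false_imp_iff, not_false_eq_true, true_imp_iff, true_and]
  rw [e]
  refine (MeasurableSet.iInter fun v => ?_).inter (MeasurableSet.iInter fun v => ?_)
  · exact measurableSet_lt measurable_const (by fun_prop)
  · have h : Measurable fun y : MS k => y.2 v := by fun_prop
    exact h (measurableSet_singleton 0).compl

theorem pi_nuv [NumberField k] (A : Set (PS k)) (hA : MeasurableSet A) :
    Measure.pi nuv A = ENNReal.ofReal (Real.pi ^ nrRealPlaces k * (Real.pi / 2) ^
      nrComplexPlaces k) * volume {y : MS k | Sgn ∅ y ∧ av y ∈ A} := by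
  have := fun v : InfinitePlace k => sf_nuv v
  have hmain : Measure.pi nuv = ENNReal.ofReal (Real.pi ^ nrRealPlaces k * (Real.pi / 2) ^
      nrComplexPlaces k) • Measure.map av (volume.restrict {y : MS k | Sgn ∅ y}) := by
    refine Measure.pi_eq fun s hs => ?_
    rw [Measure.smul_apply, smul_eq_mul, Measure.map_apply measurable_av
      (MeasurableSet.univ_pi hs), Measure.restrict_apply
        (measurable_av (MeasurableSet.univ_pi hs))]
    have e : av ⁻¹' (Set.univ.pi s) ∩ {y : MS k | Sgn ∅ y} =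
        (Set.univ.pi fun v : {w : InfinitePlace k // IsReal w} => s v.1 ∩ Set.Ioi 0) ×ˢ
        (Set.univ.pi fun v : {w : InfinitePlace k // IsComplex w} =>
          ((fun z : ℂ => ‖z‖) ⁻¹' (s v.1)) \ {0}) := by
      ext y
      simp only [Set.mem_inter_iff, Set.mem_preimage, Set.mem_univ_pi, Set.mem_prod,
        Set.mem_sdiff, Set.mem_singleton_iff, Set.mem_Ioi, Sgn, Set.mem_ofPred_eq,
        Set.mem_empty_iff_false, false_imp_iff, not_false_eq_true, true_imp_iff, true_and]
      rw [forall_places]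
      have a1 : ∀ v : {w : InfinitePlace k // IsReal w}, av y v.1 = |y.1 v| := by
        intro v
        unfold av
        rw [H25.ev_real, Complex.norm_real, Real.norm_eq_abs]
      have a2 : ∀ v : {w : InfinitePlace k // IsComplex w}, av y v.1 = ‖y.2 v‖ := by
        intro v
        unfold av
        rw [H25.ev_complex]
      simp only [a1, a2]
      constructor
      · rintro ⟨⟨h1, h2⟩, h3, h4⟩
        refine ⟨fun v => ⟨?_, h3 v⟩, fun v => ⟨h2 v, h4 v⟩⟩
        have := h1 v
        rwa [abs_of_pos (h3 v)] at this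
      · rintro ⟨h1, h2⟩
        refine ⟨⟨fun v => ?_, fun v => (h2 v).1⟩, fun v => (h1 v).2, fun v => (h2 v).2⟩
        rw [abs_of_pos (h1 v).2]
        exact (h1 v).1
    have e1 : volume (av ⁻¹' (Set.univ.pi s) ∩ {y : MS k | Sgn ∅ y}) =
        volume (Set.univ.pi fun v : {w : InfinitePlace k // IsReal w} => s v.1 ∩ Set.Ioi 0) *
        volume (Set.univ.pi fun v : {w : InfinitePlace k // IsComplex w} =>
          ((fun z : ℂ => ‖z‖) ⁻¹' (s v.1)) \ {0}) := by
      rw [e]
      exact Measure.prod_prod _ _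
    have e2 : ∀ v : {w : InfinitePlace k // IsReal w}, nuv v.1 (s v.1) =
        ENNReal.ofReal Real.pi * volume (s v.1 ∩ Set.Ioi 0) := by
      intro v
      unfold nuv
      rw [if_pos v.2, map_R, Measure.smul_apply, smul_eq_mul, Measure.restrict_apply (hs _)]
    have e3 : ∀ v : {w : InfinitePlace k // IsComplex w}, nuv v.1 (s v.1) =
        ENNReal.ofReal (Real.pi / 2) * volume (((fun z : ℂ => ‖z‖) ⁻¹' (s v.1)) \ {0}) := by
      intro v
      unfold nuv
      rw [if_neg (not_isReal_iff_isComplex.mpr v.2), map_C, Measure.smul_apply, smul_eq_mul,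
        Measure.map_apply measurable_norm (hs _), measure_sdiff_null (measure_singleton _)]
    rw [e1, volume_pi_pi, volume_pi_pi, prod_eq_prod_mul_prod,
      Finset.prod_congr rfl fun v _ => e2 v, Finset.prod_congr rfl fun v _ => e3 v,
      Finset.prod_mul_distrib, Finset.prod_mul_distrib, Finset.prod_const, Finset.prod_const,
      Finset.card_univ, Finset.card_univ, ENNReal.ofReal_mul (by positivity),
      ENNReal.ofReal_pow (by positivity), ENNReal.ofReal_pow (by positivity)]
    simp only [nrRealPlaces, nrComplexPlaces]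
    ring
  rw [hmain, Measure.smul_apply, smul_eq_mul, Measure.map_apply measurable_av hA,
    Measure.restrict_apply (measurable_av hA)]
  congr 2
  ext y
  simp only [Set.mem_inter_iff, Set.mem_preimage, Set.mem_ofPred_eq]
  tauto

/-- the volume of a set of marks given by the sizes -/
theorem vol_wz [NumberField k] (A : Set (PS k)) (hA : MeasurableSet A)
    (hpos : ∀ x ∈ A, ∀ v, 0 < x v) :
    volume ((wz : WS k → PS k) ⁻¹' A) = ENNReal.ofReal (Real.pi ^ finrank ℚ k) *
      ∫⁻ x in A, ∏ v : InfinitePlace k, ENNReal.ofReal (x v ^ (v.mult - 1)) := by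
  have hcard : nrRealPlaces k + 2 * nrComplexPlaces k = finrank ℚ k :=
    card_add_two_mul_card_eq_rank k
  rw [← Measure.map_apply measurable_wz hA, map_wz, pi_nuv A hA, H25.avv k ∅ A hA hpos,
    ← mul_assoc, ← ENNReal.ofReal_mul (by positivity), ← hcard]
  congr 2
  rw [mul_assoc, ← mul_pow, pow_add, pow_mul]
  congr 2
  ring

/-! ### null sets -/

theorem null_lin (a b : ℝ) (h : a ≠ 0 ∨ b ≠ 0) :
    volume {z : ℂ | a * z.re + b * z.im = 0} = 0 := by
  let f : ℂ →ₗ[ℝ] ℝ := a • Complex.reLm + b • Complex.imLm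
  have hf : ∀ z, f z = a * z.re + b * z.im := fun z => by simp [f]
  have h1 : {z : ℂ | a * z.re + b * z.im = 0} = (LinearMap.ker f : Set ℂ) := by
    ext z
    simp only [Set.mem_ofPred_eq, SetLike.mem_coe, LinearMap.mem_ker, hf]
  rw [h1]
  refine Measure.addHaar_submodule volume _ ?_
  intro htop
  have h2 : ∀ z, f z = 0 := fun z => by
    have : z ∈ LinearMap.ker f := by
      rw [htop]
      trivial
    exact this
  rcases h with h | h
  · have := h2 1
    rw [hf] at this
    simp at this
    exact h this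
  · have := h2 Complex.I
    rw [hf] at this
    simp at this
    exact h this

theorem null_im : volume {z : ℂ | (z ^ 3).im = 0} = 0 := by
  have hs : Real.sqrt 3 ^ 2 = 3 := Real.sq_sqrt (by norm_num)
  have hsub : {z : ℂ | (z ^ 3).im = 0} ⊆ {z : ℂ | 0 * z.re + 1 * z.im = 0} ∪
      ({z : ℂ | Real.sqrt 3 * z.re + (-1) * z.im = 0} ∪
        {z : ℂ | Real.sqrt 3 * z.re + 1 * z.im = 0}) := by
    intro z hz
    have h1 : (z ^ 3).im = z.im * ((Real.sqrt 3 * z.re - z.im) * (Real.sqrt 3 * z.re + z.im)) := by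
      have : z ^ 3 = z * z * z := by ring
      rw [this]
      simp only [Complex.mul_im, Complex.mul_re]
      linear_combination (-(z.im * z.re ^ 2)) * hs
    rw [Set.mem_ofPred_eq, h1] at hz
    rcases mul_eq_zero.mp hz with h | h
    · left
      simp only [Set.mem_ofPred_eq]
      linarith
    · right
      rcases mul_eq_zero.mp h with h | h
      · left
        simp only [Set.mem_ofPred_eq]
        linarith
      · right
        simp only [Set.mem_ofPred_eq]
        linarith
  refine measure_mono_null hsub ?_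
  rw [measure_union_null_iff, measure_union_null_iff]
  exact ⟨null_lin _ _ (Or.inr one_ne_zero), null_lin _ _ (Or.inr (by norm_num)),
    null_lin _ _ (Or.inr one_ne_zero)⟩

theorem null_re : volume {z : ℂ | z.re ^ 3 + z.im ^ 3 = 0} = 0 := by
  have hsub : {z : ℂ | z.re ^ 3 + z.im ^ 3 = 0} ⊆ {z : ℂ | 1 * z.re + 1 * z.im = 0} := by
    intro z hz
    simp only [Set.mem_ofPred_eq] at hz ⊢
    have h1 : z.re ^ 3 = (-z.im) ^ 3 := by
      have : (-z.im) ^ 3 = -(z.im ^ 3) := by ring
      rw [this]
      linarith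
    have h2 : z.re = -z.im := (Odd.strictMono_pow (by decide : Odd 3)).injective h1
    linarith
  exact measure_mono_null hsub (null_lin _ _ (Or.inl one_ne_zero))

theorem null_cc : volume {p : ℂ × ℂ | p.1 ^ 3 + p.2 ^ 3 = 0} = 0 := by
  have hm : MeasurableSet {p : ℂ × ℂ | p.1 ^ 3 + p.2 ^ 3 = 0} :=
    measurableSet_eq_fun (by fun_prop) measurable_const
  have h1 : ((volume : Measure ℂ).prod (volume : Measure ℂ)) {p : ℂ × ℂ | p.1 ^ 3 + p.2 ^ 3 = 0} =
      0 := by
    rw [Measure.measure_prod_null hm]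
    refine Filter.Eventually.of_forall fun x => ?_
    have h2 : (Prod.mk x ⁻¹' {p : ℂ × ℂ | p.1 ^ 3 + p.2 ^ 3 = 0}).Finite := by
      refine ((Polynomial.nthRoots 3 (-(x ^ 3))).toFinset.finite_toSet).subset ?_
      intro y hy
      simp only [Set.mem_preimage, Set.mem_ofPred_eq] at hy
      rw [Finset.mem_coe, Multiset.mem_toFinset, Polynomial.mem_nthRoots (by norm_num)]
      linear_combination hy
    exact h2.measure_zero _
  exact h1

theorem qR [NumberField k] (v : {w : InfinitePlace k // IsReal w}) :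
    Measure.QuasiMeasurePreserving (fun w : WS k => w.1 v) := by
  have h1 : Measure.QuasiMeasurePreserving (fun w : WS k => w.1)
      ((volume : Measure ({w : InfinitePlace k // IsReal w} → ℂ)).prod
        (volume : Measure ({w : InfinitePlace k // IsComplex w} → ℂ × ℂ))) volume :=
    Measure.quasiMeasurePreserving_fst
  have h2 : Measure.QuasiMeasurePreserving
      (Function.eval v : ({w : InfinitePlace k // IsReal w} → ℂ) → ℂ)
      (Measure.pi fun _ => volume) volume := Measure.quasiMeasurePreserving_eval _ v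
  exact h2.comp h1

theorem qC [NumberField k] (v : {w : InfinitePlace k // IsComplex w}) :
    Measure.QuasiMeasurePreserving (fun w : WS k => w.2 v) := by
  have h1 : Measure.QuasiMeasurePreserving (fun w : WS k => w.2)
      ((volume : Measure ({w : InfinitePlace k // IsReal w} → ℂ)).prod
        (volume : Measure ({w : InfinitePlace k // IsComplex w} → ℂ × ℂ))) volume :=
    Measure.quasiMeasurePreserving_snd
  have h2 : Measure.QuasiMeasurePreserving
      (Function.eval v : ({w : InfinitePlace k // IsComplex w} → ℂ × ℂ) → ℂ × ℂ)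
      (Measure.pi fun _ => volume) volume := Measure.quasiMeasurePreserving_eval _ v
  exact h2.comp h1

theorem c3_nonneg (N : Set {w : InfinitePlace k // IsReal w}) (w : WS k)
    (v : {w : InfinitePlace k // IsReal w}) : 0 ≤ c3 N w v := by
  unfold c3
  split_ifs <;> exact abs_nonneg _

theorem null_R [NumberField k] (N : Set {w : InfinitePlace k // IsReal w})
    (v : {w : InfinitePlace k // IsReal w}) : volume {w : WS k | c3 N w v = 0} = 0 := by
  by_cases hv : v ∈ N
  · have e : {w : WS k | c3 N w v = 0} = (fun w : WS k => w.1 v) ⁻¹' {z : ℂ | (z ^ 3).im = 0} := by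
      ext w
      simp only [Set.mem_ofPred_eq, Set.mem_preimage, c3, if_pos hv, abs_eq_zero]
    rw [e]
    exact (qR v).preimage_null null_im
  · have e : {w : WS k | c3 N w v = 0} =
        (fun w : WS k => w.1 v) ⁻¹' {z : ℂ | z.re ^ 3 + z.im ^ 3 = 0} := by
      ext w
      simp only [Set.mem_ofPred_eq, Set.mem_preimage, c3, if_neg hv, abs_eq_zero]
    rw [e]
    exact (qR v).preimage_null null_re

theorem null_C [NumberField k] (v : {w : InfinitePlace k // IsComplex w}) :
    volume {w : WS k | (w.2 v).1 ^ 3 + (w.2 v).2 ^ 3 = 0} = 0 :=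
  (qC v).preimage_null null_cc

theorem continuous_c3 (N : Set {w : InfinitePlace k // IsReal w})
    (v : {w : InfinitePlace k // IsReal w}) : Continuous fun w : WS k => c3 N w v := by
  unfold c3
  by_cases hv : v ∈ N
  · simp only [if_pos hv]
    have h : Continuous fun w : WS k => w.1 v := by fun_prop
    exact (Complex.continuous_im.comp (h.pow 3)).abs
  · simp only [if_neg hv]
    have h : Continuous fun w : WS k => w.1 v := by fun_prop
    exact (((Complex.continuous_re.comp h).pow 3).add ((Complex.continuous_im.comp h).pow 3)).abs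

/-- the region without the lower bounds -/
def U0 [NumberField k] (Φ : CFrame k) : Set (WS k) :=
  {w | wz w ∈ interior (Φ.F ∩ {x | nr x ≤ 1})}

theorem isOpen_U0 [NumberField k] (Φ : CFrame k) : IsOpen (U0 Φ) :=
  isOpen_interior.preimage continuous_wz

theorem isOpen_DD [NumberField k] (Φ : CFrame k) (N : Set {w : InfinitePlace k // IsReal w})
    (η : ℝ) : IsOpen (DD Φ N η) := by
  have e : DD Φ N η = U0 Φ ∩ ((⋂ v : {w : InfinitePlace k // IsReal w}, {w | η < c3 N w v}) ∩
      ⋂ v : {w : InfinitePlace k // IsComplex w},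
        {w : WS k | η < ‖(w.2 v).1 ^ 3 + (w.2 v).2 ^ 3‖}) := by
    ext w
    simp only [DD, U0, Set.mem_ofPred_eq, Set.mem_inter_iff, Set.mem_iInter]
  rw [e]
  refine (isOpen_U0 Φ).inter ((isOpen_iInter_of_finite fun v => ?_).inter
    (isOpen_iInter_of_finite fun v => ?_))
  · exact isOpen_lt continuous_const (continuous_c3 N v)
  · exact isOpen_lt continuous_const (by fun_prop)

theorem bounded_U0 [NumberField k] (hcon : ConStmt) (Φ : CFrame k) :
    Bornology.IsBounded (U0 Φ) := by
  have h1 := ((hcon k Φ).2.2.2.2.2 1 one_pos).1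
  obtain ⟨C, hC⟩ := h1.exists_norm_le
  have hC' : ∀ w ∈ U0 Φ, ∀ v, wz w v ≤ max C 0 := by
    intro w hw v
    have h2 : ‖wz w‖ ≤ C := hC _ (interior_subset hw)
    exact (le_abs_self _).trans ((norm_le_pi_norm (wz w) v).trans (h2.trans (le_max_left _ _)))
  have h0 : (0 : ℝ) ≤ Real.sqrt (max C 0) := Real.sqrt_nonneg _
  refine isBounded_iff_forall_norm_le.mpr ⟨Real.sqrt (max C 0), fun w hw => ?_⟩
  rw [Prod.norm_def]
  refine max_le ?_ ?_
  · rw [pi_norm_le_iff_of_nonneg h0]
    intro v
    have h3 := hC' w hw v.1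
    rw [wz_real] at h3
    exact Real.le_sqrt_of_sq_le h3
  · rw [pi_norm_le_iff_of_nonneg h0]
    intro v
    have h3 := hC' w hw v.1
    rw [wz_complex] at h3
    rw [Prod.norm_def]
    refine max_le ?_ ?_
    · exact Real.le_sqrt_of_sq_le (by nlinarith [sq_nonneg ‖(w.2 v).2‖])
    · exact Real.le_sqrt_of_sq_le (by nlinarith [sq_nonneg ‖(w.2 v).1‖])

theorem vol_U0 [NumberField k] (hcon : ConStmt) (Φ : CFrame k) :
    volume (U0 Φ) = ENNReal.ofReal (Real.pi ^ finrank ℚ k * Φ.w) := by
  have h1 := ((hcon k Φ).2.2.2.2.2 1 one_pos).2.2.2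
  have h2 := vol_wz (k := k) (interior (Φ.F ∩ {x | nr x ≤ 1})) isOpen_interior.measurableSet
    (fun x hx => Φ.pos x (interior_subset hx).1)
  have h3 : volume (U0 Φ) = ENNReal.ofReal (Real.pi ^ finrank ℚ k) *
      ENNReal.ofReal (Φ.w * 1) := by
    rw [← h1]
    exact h2
  rw [h3, mul_one, ← ENNReal.ofReal_mul (by positivity)]

theorem vol_union [NumberField k] (Φ : CFrame k) (N : Set {w : InfinitePlace k // IsReal w}) :
    volume (⋃ n : ℕ, DD Φ N (1 / ((n : ℝ) + 1))) = volume (U0 Φ) := by
  refine le_antisymm (measure_mono ?_) ?_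
  · refine Set.iUnion_subset fun n w hw => hw.1
  · have hsub : U0 Φ ⊆ (⋃ n : ℕ, DD Φ N (1 / ((n : ℝ) + 1))) ∪
        ((⋃ v : {w : InfinitePlace k // IsReal w}, {w : WS k | c3 N w v = 0}) ∪
          ⋃ v : {w : InfinitePlace k // IsComplex w},
            {w : WS k | (w.2 v).1 ^ 3 + (w.2 v).2 ^ 3 = 0}) := by
      intro w hw
      by_cases h1 : ∃ v, c3 N w v = 0
      · right
        left
        exact Set.mem_iUnion.mpr h1
      · by_cases h2 : ∃ v : {w : InfinitePlace k // IsComplex w},
            (w.2 v).1 ^ 3 + (w.2 v).2 ^ 3 = 0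
        · right
          right
          exact Set.mem_iUnion.mpr h2
        · left
          push Not at h1 h2
          have h3 : ∀ v, 0 < c3 N w v := fun v => (c3_nonneg N w v).lt_of_ne' (h1 v)
          have h4 : ∀ v : {w : InfinitePlace k // IsComplex w},
              0 < ‖(w.2 v).1 ^ 3 + (w.2 v).2 ^ 3‖ := fun v => norm_pos_iff.mpr (h2 v)
          have h5 : ∃ n : ℕ, (∀ v, 1 / ((n : ℝ) + 1) < c3 N w v) ∧
              ∀ v : {w : InfinitePlace k // IsComplex w},
                1 / ((n : ℝ) + 1) < ‖(w.2 v).1 ^ 3 + (w.2 v).2 ^ 3‖ := by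
            have a1 : ∀ x : ℝ, 0 < x → ∀ᶠ n : ℕ in Filter.atTop, 1 / ((n : ℝ) + 1) < x :=
              fun x hx => tendsto_one_div_add_atTop_nhds_zero_nat.eventually_lt_const hx
            have a2 : ∀ᶠ n : ℕ in Filter.atTop, ∀ v, 1 / ((n : ℝ) + 1) < c3 N w v :=
              Filter.eventually_all.mpr fun v => a1 _ (h3 v)
            have a3 : ∀ᶠ n : ℕ in Filter.atTop, ∀ v : {w : InfinitePlace k // IsComplex w},
                1 / ((n : ℝ) + 1) < ‖(w.2 v).1 ^ 3 + (w.2 v).2 ^ 3‖ :=
              Filter.eventually_all.mpr fun v => a1 _ (h4 v)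
            exact (a2.and a3).exists
          obtain ⟨n, h6, h7⟩ := h5
          exact Set.mem_iUnion.mpr ⟨n, hw, h6, h7⟩
    refine (measure_mono hsub).trans ((measure_union_le _ _).trans ?_)
    have h8 : volume ((⋃ v : {w : InfinitePlace k // IsReal w}, {w : WS k | c3 N w v = 0}) ∪
          ⋃ v : {w : InfinitePlace k // IsComplex w},
            {w : WS k | (w.2 v).1 ^ 3 + (w.2 v).2 ^ 3 = 0}) = 0 := by
      rw [measure_union_null_iff, measure_iUnion_null_iff, measure_iUnion_null_iff]
      exact ⟨fun v => null_R N v, fun v => null_C v⟩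
    rw [h8, add_zero]

theorem vod_stmt (hcon : ConStmt) : VodStmt := by
  intro k _ _ Φ N ε hε
  have hmono : Monotone fun n : ℕ => DD Φ N (1 / ((n : ℝ) + 1)) := by
    intro m n hmn w hw
    have h1 : 1 / ((n : ℝ) + 1) ≤ 1 / ((m : ℝ) + 1) := by
      apply one_div_le_one_div_of_le (by positivity)
      have : (m : ℝ) ≤ n := by exact_mod_cast hmn
      linarith
    exact ⟨hw.1, fun v => h1.trans_lt (hw.2.1 v), fun v => h1.trans_lt (hw.2.2 v)⟩
  have hlim := tendsto_measure_iUnion_atTop (μ := volume) hmono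
  rw [vol_union, vol_U0 hcon] at hlim
  have hw : 0 < Φ.w := (hcon k Φ).2.1
  have hlim' := (ENNReal.tendsto_toReal ENNReal.ofReal_ne_top).comp hlim
  rw [ENNReal.toReal_ofReal (by positivity)] at hlim'
  have hev := hlim'.eventually_const_lt
    (show Real.pi ^ finrank ℚ k * Φ.w - ε < Real.pi ^ finrank ℚ k * Φ.w by linarith)
  obtain ⟨n, hn⟩ := hev.exists
  refine ⟨1 / ((n : ℝ) + 1), by positivity, isOpen_DD Φ N _, ?_, hn.le⟩
  exact (bounded_U0 hcon Φ).subset fun w hw => hw.1

end Pool.Agent.LeoC.H56.VOD
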